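import Mathlib
import Pool.Agent.Y582.LG.Main

set_option autoImplicit false

/-!
# The relation `τ⁺ →_{hc,<3} (τ⁺)²_θ` at the successor of every regular uncountable cardinal `τ`,
for all `θ < τ` at once
-/

namespace Pool.Agent.Results.MP_54de64_lc.SuccessorsOfRegulars

open Cardinal Pool.Agent.Helper669.Forcing Pool.Agent.Helper669.K Pool.Agent.Helper669.U
  Pool.Agent.Helper669.V Pool.Agent.Y582.LG Pool.Agent.H995R3

/-- Let `κ` be a measurable cardinal and let `τ < κ` be any regular uncountable cardinal. There is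
a forcing notion `P` (the Levy collapse `Col(τ, <κ)`), every condition of which forces that the
regular cardinals up to `τ` and `κ` stay regular and that every cardinal below `κ` has cardinality
at most `τ` (so `κ = τ⁺`), that `2^ν ≤ τ` for all `ν < τ`, and that `κ →_{hc,<3} (κ)²_θ` for all
`θ < τ` simultaneously. For `τ = ℵ₁` and `θ = ω` this is `ℵ₂ →_{hc,<3} (ℵ₂)²_ω`. -/
theorem result (κ : Cardinal.{0}) (h : IsMeasurable κ) (τ : Cardinal.{0}) (hτ : τ.IsRegular)
    (hτ0 : ℵ₀ < τ) (hτκ : τ < κ) :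
    ∃ (P : Type) (_ : Preorder P), Nonempty P ∧ ∀ p : P,
      (∀ ρ : Cardinal.{0}, ρ.IsRegular → ρ ≤ τ → p ∈ StaysRegular P ρ) ∧
      p ∈ StaysRegular P κ ∧ p ∈ CollapsedTo P τ κ ∧
      (∀ ν < τ, p ∈ PowOnto P ν τ) ∧
      ∀ θ < τ, p ∈ HcCol P κ.ord.ToType θ.out 3 := by
  obtain ⟨hκ, h2⟩ := regular_of_measurable h
  obtain ⟨U, hN⟩ := exists_normal h
  refine ⟨GC τ τ.ord.ToType κ.ord.ToType, inferInstance,
    ⟨⟨∅, by simpa using (aleph0_pos.trans hτ0), fun _ _ _ _ h => absurd h (by simp),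
      fun _ _ _ h => absurd h (by simp)⟩⟩, fun p => ⟨?_, ?_, ?_, ?_, ?_⟩⟩
  · intro ρ hρ hle
    exact GC.staysRegular_le hτ hρ hle p
  · exact staysRegular_of_cc' hκ (fun ι f hι => GC.cc hτ0.le hN hτκ ι f hι) p
  · exact GC.collapsed hτ0.le p
  · intro ν hν
    exact GC.powOnto hτ hν (h2 ν (hν.trans hτκ)) p
  · intro θ hθ
    exact hc_col h hτ hτ0 hτκ (by rw [Cardinal.mk_out]; exact hθ) p

end Pool.Agent.Results.MP_54de64_lc.SuccessorsOfRegulars
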